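import Pool.Agent.N206.CG.Stm

/-!
Project CG: automorphisms preserving the subgroup `Hs`, second level data; normaliser of `Hs`.
-/

namespace Pool.Agent.N348.CG

open Classical Pool.Agent.N206.CG

theorem comm_fix (L : Loc) (n : ℕ) (s t : Equiv.Perm (L.E n))
    (h : ∀ b, s * L.rho n b * s⁻¹ = t * L.rho n b * t⁻¹) : s = t := by
  have h1 : t⁻¹ * s = 1 := by
    apply L.fix n
    intro g hg
    rw [← L.rho_range n] at hg
    obtain ⟨b, rfl⟩ := hg
    have hb := h b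
    calc t⁻¹ * s * L.rho n b = t⁻¹ * (s * L.rho n b * s⁻¹) * s := by group
      _ = t⁻¹ * (t * L.rho n b * t⁻¹) * s := by rw [hb]
      _ = L.rho n b * (t⁻¹ * s) := by group
  calc s = t * (t⁻¹ * s) := by group
    _ = t := by rw [h1, mul_one]

theorem t_G2 {L : Loc} (S : Sys L) (hA : RulesA S) (hB : RulesB S) (h : HRules S)
    (h1 : S_G1 S) : S_G2 S := by
  intro α hO hp
  have hG := h1 α hO hp
  have hex : ∀ b, ∃ b', S.HH 0 b' (α 0 (S.sp 0 b)) := by
    intro b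
    rw [← h.mem, ← hp, h.mem]
    exact ⟨b, h.sp 0 b⟩
  choose f hf using hex
  have hfm : ∀ b b', f (b * b') = f b * f b' := by
    intro b b'
    apply h.uniq 0 _ _ (α 0 (S.sp 0 (b * b'))) (hf _)
    rw [map_mul, map_mul]
    exact h.mul 0 _ _ _ _ (hf b) (hf b')
  have hz : ∀ m, S.sg m (α m) (L.z m) = L.z m := by
    intro m
    rcases (hG m).1 with e | e
    · rw [e]; rfl
    · rw [e]; exact L.J_z m
  have hX : ∀ m, ∀ x ∈ L.X m, S.sg m (α m) x ∈ L.X m := by
    intro m x hx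
    rcases (hG m).1 with e | e
    · rw [e]; exact hx
    · rw [e]; exact (L.J_X m x).1 hx
  have hC : ∀ m b, S.HH m (f b) (α m (S.sp m b)) := by
    intro m
    induction m with
    | zero => exact hf
    | succ m ih =>
      intro b
      have h2 := ((h.unf m _ _).1 (ih b)).2.1
      have h3 := hA.sec_ap m (α m) (S.sp m b) (L.z m) (S.root_sp m b)
      rw [hz m, S.sec_sp_z, ← hO m] at h3
      rw [h3] at h2
      exact h2
  have hs : ∀ m, ∀ x ∈ L.X m, ∀ b, L.rho (m + 1) (f b) =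
      S.sg (m + 1) (S.asc m (α m) x) * L.rho (m + 1) b *
        (S.sg (m + 1) (S.asc m (α m) x))⁻¹ := by
    intro m x hx b
    have h2 := ((h.unf m _ _).1 (hC m b)).2.2 _ (hX m x hx)
    rw [hA.sec_ap m (α m) (S.sp m b) x (S.root_sp m b), S.sec_sp_X m b x hx, hA.root_ap,
      S.root_rt] at h2
    exact h2.symm
  have hxx : ∀ m, ∃ x, x ∈ L.X m := by
    intro m
    obtain ⟨x, hx, _⟩ := L.X_two m
    exact ⟨x, hx⟩
  choose x0 hx0 using hxx
  refine ⟨fun m => Nat.casesOn m 1 (fun m => S.sg (m + 1) (S.asc m (α m) (x0 m))), ?_, ?_,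
    ⟨⟨f, ?_⟩, hfm⟩, ?_⟩
  · intro m x hx
    apply comm_fix L (m + 1)
    intro b
    change _ = S.sg (m + 1) (S.asc m (α m) (x0 m)) * L.rho (m + 1) b *
        (S.sg (m + 1) (S.asc m (α m) (x0 m)))⁻¹
    rw [← hs m x hx b, ← hs m (x0 m) (hx0 m) b]
  · intro m
    obtain ⟨d, hd⟩ := hB.asc_inn m (α m) (L.z m) (x0 m)
    refine ⟨S.root (m + 1) d, S.root_mem _ _, ?_⟩
    change S.sg (m + 1) (S.asc m (α m) (x0 m)) = _
    rw [hd, ← hO m, hA.sg_mul, hA.sg_conj]
  · have h2 := hfm 1 1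
    rw [mul_one] at h2
    exact (mul_eq_left.1 h2.symm)
  · intro m b
    exact hs m (x0 m) (hx0 m) b

theorem t_HNORM {L : Loc} (S : Sys L) (hA : RulesA S) (h : HRules S) (h1 : S_G1 S)
    (h2 : S_G2 S) (h3 : S_STAB S) : S_HNORM S := by
  intro d hd
  let s : ∀ m, S.D m := fun m => Nat.rec (motive := fun m => S.D m) d
    (fun m e => S.sec m e (L.z m)) m
  have hs0 : s 0 = d := rfl
  have hs1 : ∀ m, s (m + 1) = S.sec m (s m) (L.z m) := fun m => rfl
  let α : ∀ m, MulAut (S.D m) := fun m => MulAut.conj (s m)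
  have hO : IsOrb S α := by
    intro m
    change MulAut.conj (s (m + 1)) = S.asc m (MulAut.conj (s m)) (L.z m)
    rw [hA.asc_conj, hs1]
  have hp : ∀ g, g ∈ S.Hs ↔ α 0 g ∈ S.Hs := by
    intro g
    change g ∈ S.Hs ↔ MulAut.conj (s 0) g ∈ S.Hs
    rw [hs0, MulAut.conj_apply]
    exact hd g
  have hG := h1 α hO hp
  have hr : ∀ m, S.root m (s m) = 1 := by
    intro m
    have h4 := (hG m).1
    change S.sg m (MulAut.conj (s m)) = 1 ∨ S.sg m (MulAut.conj (s m)) = L.J m at h4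
    rw [hA.sg_conj] at h4
    rcases h4 with e | e
    · exact e
    · exact absurd (e ▸ S.root_mem m (s m)) (L.J_not m)
  obtain ⟨t, ht, -, f, hf⟩ := h2 α hO hp
  have ht1 : ∀ m, ∀ x ∈ L.X m, S.root (m + 1) (S.sec m (s m) x) = t (m + 1) := by
    intro m x hx
    have h4 := ht m x hx
    change S.sg (m + 1) (S.asc m (MulAut.conj (s m)) x) = t (m + 1) at h4
    rw [hA.asc_conj, hA.sg_conj] at h4
    exact h4
  obtain ⟨N, b0, hN⟩ := h3 s hs1
  have ht2 : ∀ m, N ≤ m → t (m + 1) = L.rho (m + 1) b0 := by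
    intro m hm
    obtain ⟨x, hx, _⟩ := L.X_two m
    rw [← ht1 m x hx, hN m hm, S.sec_sp_X m b0 x hx, S.root_rt]
  have hfb : ∀ b, f b = b0 * b * b0⁻¹ := by
    intro b
    have h5 : f b * (b0 * b * b0⁻¹)⁻¹ = 1 := by
      apply L.rho_inj (N + 1)
      intro n hn
      obtain ⟨m, rfl⟩ : ∃ m, n = m + 1 := ⟨n - 1, by omega⟩
      rw [map_mul, hf m b, ht2 m (by omega), map_inv, map_mul, map_mul, map_inv]
      group
    exact mul_inv_eq_one.1 h5
  have ht3 : ∀ m, t (m + 1) = L.rho (m + 1) b0 := by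
    intro m
    apply comm_fix L (m + 1)
    intro b
    rw [← hf m b, hfb b, map_mul, map_mul, map_inv]
  rw [h.mem]
  refine ⟨b0, s, hs0, ?_⟩
  intro m _
  refine ⟨hr m, hs1 m, ?_⟩
  intro x hx
  rw [ht1 m x hx, ht3 m]

end Pool.Agent.N348.CG
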